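import Mathlib

open Set Cardinal

namespace Pool.Agent.Results.MP_667be6_lc.No

/-- Elements of `^{<κ}κ`, where `K` is the well-order of type `κ`: functions from a proper
initial segment of `K` into `K`. The first component is the domain (level). -/
abbrev Node (K : Type) [LinearOrder K] : Type := Σ a : K, (Set.Iio a → K)

variable {K : Type} [LinearOrder K]

/-- `s` is an initial segment of `t`. -/
def Init (s t : Node K) : Prop :=
  ∃ h : s.1 ≤ t.1, ∀ (x : K) (hx : x < s.1), s.2 ⟨x, hx⟩ = t.2 ⟨x, lt_of_lt_of_le hx h⟩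

/-- Branch: a subset of `T` linearly ordered by `Init`. -/
def IsBranch (T B : Set (Node K)) : Prop :=
  B ⊆ T ∧ ∀ s ∈ B, ∀ t ∈ B, Init s t ∨ Init t s

/-- Regular `κ`-tree. -/
structure Regular (κ : Cardinal.{0}) (T : Set (Node K)) : Prop where
  closed : ∀ t ∈ T, ∀ s, Init s t → s ∈ T
  height : ∀ a : K, ∃ t ∈ T, t.1 = a
  level : ∀ a : K, #{t : Node K // t ∈ T ∧ t.1 = a} < κ
  long : ∀ B, Maximal (IsBranch T) B → ∀ a : K, ∃ t ∈ B, a ≤ t.1
  perfect : ∀ t ∈ T, ∃ u ∈ T, ∃ v ∈ T, Init t u ∧ Init t v ∧ ¬ Init u v ∧ ¬ Init v u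

/-- `u` is an immediate successor of `t` in `T`. -/
def ImmSucc (T : Set (Node K)) (t u : Node K) : Prop := u ∈ T ∧ Init t u ∧ t.1 ⋖ u.1

/-- `T'` is a strong subtree of `T` witnessed by `A`. -/
structure Strong (κ : Cardinal.{0}) (T T' : Set (Node K)) (A : Set K) : Prop where
  reg : Regular κ T'
  sub : T' ⊆ T
  full : ∀ t ∈ T', t.1 ∈ A → ∀ u, ImmSucc T t u → u ∈ T'
  one : ∀ t ∈ T', t.1 ∉ A → ∃! u, ImmSucc T' t u

/-- `HL(d, σ, κ)`; colours come from a type with `σ` elements. -/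
def HL (d : ℕ) (σ κ : Cardinal.{0}) : Prop :=
  ∀ (C : Type), #C = σ → ∀ T : Fin d → Set (Node κ.ord.ToType), (∀ i, Regular κ (T i)) →
    ∀ c : (Fin d → Node κ.ord.ToType) → C,
      ∃ A : Set κ.ord.ToType, IsCofinal A ∧ ∃ T' : Fin d → Set (Node κ.ord.ToType),
        (∀ i, Strong κ (T i) (T' i) A) ∧
        ∃ j : C, ∀ a ∈ A, ∀ x : Fin d → Node κ.ord.ToType,
          (∀ i, x i ∈ T' i ∧ (x i).1 = a) → c x = j

theorem fail_sing (κ : Cardinal.{0}) (hκ : ℵ₀ ≤ κ)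
    (hT : ∃ T : Set (Node κ.ord.ToType), Regular κ T) (d : ℕ) (hd : 1 ≤ d) :
    ¬ HL d κ.ord.cof κ := by
  intro H
  obtain ⟨T, hT⟩ := hT
  haveI := Cardinal.noMaxOrder hκ
  obtain ⟨S, hS, hc⟩ := Order.exists_cof_eq κ.ord.ToType
  rw [Ordinal.cof_toType] at hc
  choose g hgS hg using hS
  obtain ⟨A, hA, T', hT', j, hj⟩ := H S hc (fun _ => T) (fun _ => hT)
    (fun x => ⟨g (x ⟨0, hd⟩).1, hgS _⟩)
  obtain ⟨b, hb⟩ := exists_gt j.1
  obtain ⟨a, haA, hba⟩ := hA b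
  choose x hx hxa using fun i => (hT' i).reg.height a
  have h1 := hj a haA x (fun i => ⟨hx i, hxa i⟩)
  have h2 : g a = j.1 := by rw [← h1, ← hxa ⟨0, hd⟩]
  exact absurd (lt_of_lt_of_le hb (hba.trans (hg a))) (by rw [h2]; exact lt_irrefl _)

theorem node_ext {s t : Node K} (h : s.1 = t.1) (h2 : Init s t) : s = t := by
  obtain ⟨a, f⟩ := s
  obtain ⟨b, g⟩ := t
  dsimp only at h
  subst h
  obtain ⟨_, h2⟩ := h2
  congr 1
  funext x
  exact h2 x.1 x.2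

theorem exists_tree (κ : Cardinal.{0}) (hκ : ℵ₀ ≤ κ) (γ : ℕ → K) (hγ : StrictMono γ)
    (hcof : ∀ a, ∃ n, a ≤ γ n) : ∃ T : Set (Node K), Regular κ T := by
  classical
  have h01 : γ 0 ≠ γ 1 := (hγ (by norm_num)).ne
  refine ⟨{t | ∀ x hx, t.2 ⟨x, hx⟩ = γ 0 ∨ (x ∈ range γ ∧ t.2 ⟨x, hx⟩ = γ 1)}, ?_, ?_, ?_, ?_, ?_⟩
  · rintro t ht s ⟨h, hs⟩ x hx
    rw [hs x hx]; exact ht x _
  · intro a
    exact ⟨⟨a, fun _ => γ 0⟩, fun _ _ => Or.inl rfl, rfl⟩
  · intro a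
    obtain ⟨n, hn⟩ := hcof a
    refine lt_of_lt_of_le ?_ hκ
    rw [lt_aleph0_iff_finite]
    refine Finite.of_injective (β := Fin n → Prop)
      (fun t m => ∃ h : γ m < t.1.1, t.1.2 ⟨γ m, h⟩ = γ 0) ?_
    rintro ⟨s, hs, hsa⟩ ⟨t, ht, hta⟩ hst
    refine Subtype.ext (node_ext (hsa.trans hta.symm) ⟨(hsa.trans hta.symm).le, fun x hx => ?_⟩)
    have hx' : x < t.1 := lt_of_lt_of_le hx (hsa.trans hta.symm).le
    by_cases hr : x ∈ range γ
    · obtain ⟨m, rfl⟩ := hr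
      have hm : m < n := hγ.lt_iff_lt.1 (lt_of_lt_of_le (hsa ▸ hx) hn)
      have key := congrFun hst ⟨m, hm⟩
      simp only [eq_iff_iff] at key
      rcases hs _ hx with h1 | ⟨_, h1⟩ <;> rcases ht _ hx' with h2 | ⟨_, h2⟩
      · exact h1.trans h2.symm
      · obtain ⟨_, h3⟩ := key.1 ⟨hx, h1⟩
        exact absurd (h3.symm.trans h2) h01
      · obtain ⟨_, h3⟩ := key.2 ⟨hx', h2⟩
        exact absurd (h3.symm.trans h1) h01
      · exact h1.trans h2.symm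
    · rcases hs _ hx with h1 | ⟨h, _⟩
      · rcases ht _ hx' with h2 | ⟨h, _⟩
        · exact h1.trans h2.symm
        · exact absurd h hr
      · exact absurd h hr
  · intro B hB a
    by_contra hcon
    push Not at hcon
    let u : Node K := ⟨a, fun x =>
      if h : ∃ t ∈ B, x.1 < t.1 then h.choose.2 ⟨x.1, h.choose_spec.2⟩ else γ 0⟩
    have hu : ∀ t ∈ B, Init t u := by
      intro t ht
      refine ⟨(hcon t ht).le, fun x hx => ?_⟩
      have h : ∃ t ∈ B, x < t.1 := ⟨t, ht, hx⟩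
      simp only [u, dif_pos h]
      rcases hB.prop.2 t ht _ h.choose_spec.1 with ⟨_, h1⟩ | ⟨_, h1⟩
      · exact h1 x hx
      · exact (h1 x _).symm
    have huB : u ∈ B := by
      refine hB.2 (y := insert u B) ⟨?_, ?_⟩ (subset_insert _ _) (mem_insert _ _)
      · rintro t (rfl | ht)
        · intro x hx
          by_cases h : ∃ t ∈ B, x < t.1
          · simp only [u, dif_pos h]
            exact hB.prop.1 h.choose_spec.1 x _
          · simp only [u, dif_neg h]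
            exact Or.inl trivial
        · exact hB.prop.1 ht
      · rintro s (rfl | hs) t (rfl | ht)
        · exact Or.inl ⟨le_rfl, fun _ _ => rfl⟩
        · exact Or.inr (hu t ht)
        · exact Or.inl (hu s hs)
        · exact hB.prop.2 s hs t ht
    exact lt_irrefl _ (hcon u huB)
  · intro t ht
    obtain ⟨n, hn⟩ := hcof t.1
    have hlt : γ n < γ (n + 1) := hγ (Nat.lt_succ_self n)
    have hnot : ¬ γ n < t.1 := not_lt.2 hn
    let u : K → Node K := fun v => ⟨γ (n + 1), fun x =>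
      if h : x.1 < t.1 then t.2 ⟨x.1, h⟩ else if x.1 = γ n then v else γ 0⟩
    have hin : ∀ v, Init t (u v) := fun v =>
      ⟨hn.trans hlt.le, fun x hx => by simp only [u, dif_pos hx]⟩
    have hmem : ∀ v, v = γ 0 ∨ v = γ 1 → ∀ x hx,
        (u v).2 ⟨x, hx⟩ = γ 0 ∨ (x ∈ range γ ∧ (u v).2 ⟨x, hx⟩ = γ 1) := by
      intro v hv x hx
      by_cases h : x < t.1
      · simp only [u, dif_pos h]; exact ht x h
      · by_cases h2 : x = γ n
        · simp only [u, dif_neg h, if_pos h2]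
          exact hv.imp id (fun h3 => ⟨⟨n, h2.symm⟩, h3⟩)
        · simp only [u, dif_neg h, if_neg h2]; exact Or.inl trivial
    have hne : ∀ v w, Init (u v) (u w) → v = w := by
      rintro v w ⟨_, h⟩
      have := h (γ n) hlt
      simpa only [u, dif_neg hnot, if_pos] using this
    exact ⟨u (γ 0), hmem _ (Or.inl rfl), u (γ 1), hmem _ (Or.inr rfl), hin _, hin _,
      fun h => h01 (hne _ _ h), fun h => h01 (hne _ _ h).symm⟩

theorem exists_seq [NoMaxOrder K] [Nonempty K] (h : Order.cof K = ℵ₀) :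
    ∃ γ : ℕ → K, StrictMono γ ∧ ∀ a, ∃ n, a ≤ γ n := by
  obtain ⟨S, hS, hc⟩ := Order.exists_cof_eq K
  have hcount : S.Countable := by rw [← le_aleph0_iff_set_countable, hc, h]
  obtain ⟨a0⟩ := ‹Nonempty K›
  obtain ⟨s, rfl⟩ := hcount.exists_eq_range (let ⟨b, hb, _⟩ := hS a0; ⟨b, hb⟩)
  choose nx hnx using fun a : K => exists_gt a
  let γ : ℕ → K := fun n => Nat.rec a0 (fun m b => nx (max b (s m))) n
  refine ⟨γ, strictMono_nat_of_lt_succ fun n => lt_of_le_of_lt (le_max_left _ _) (hnx _), fun a => ?_⟩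
  obtain ⟨_, ⟨m, rfl⟩, hm⟩ := hS a
  exact ⟨m + 1, hm.trans (lt_of_le_of_lt (le_max_right _ _) (hnx _)).le⟩

theorem result :
    (∀ κ : Cardinal.{0}, ℵ₀ ≤ κ → κ.ord.cof < κ →
      (∃ T : Set (Node κ.ord.ToType), Regular κ T) → ∀ d, 1 ≤ d → ¬ HL d κ.ord.cof κ) ∧
    (∀ κ : Cardinal.{0}, ℵ₀ < κ → κ.ord.cof = ℵ₀ → ∀ d, 1 ≤ d → ¬ HL d ℵ₀ κ) ∧
    ¬ (∀ κ : Cardinal.{0}, ℵ₀ < κ → ∀ d, 1 ≤ d → ∀ σ, 0 < σ → σ < κ → HL d σ κ) := by
  have h2 : ∀ κ : Cardinal.{0}, ℵ₀ < κ → κ.ord.cof = ℵ₀ → ∀ d, 1 ≤ d → ¬ HL d ℵ₀ κ := by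
    intro κ hκ hc d hd
    haveI := Cardinal.noMaxOrder hκ.le
    haveI : Nonempty κ.ord.ToType := by
      rw [← mk_ne_zero_iff, mk_ord_toType]; exact (aleph0_pos.trans hκ).ne'
    obtain ⟨γ, h1, h3⟩ := exists_seq (K := κ.ord.ToType) (by rw [Ordinal.cof_toType, hc])
    rw [← hc]
    exact fail_sing κ hκ.le (exists_tree κ hκ.le γ h1 h3) d hd
  refine ⟨fun κ h _ hT d hd => fail_sing κ h hT d hd, h2, fun H => ?_⟩
  have hk : ℵ₀ < ℵ_ Ordinal.omega0 := aleph0_lt_aleph.2 Ordinal.omega0_pos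
  refine h2 _ hk ?_ 1 le_rfl (H _ hk 1 le_rfl _ aleph0_pos hk)
  rw [ord_aleph, Ordinal.cof_omega Ordinal.isSuccLimit_omega0, Ordinal.cof_omega0]

end Pool.Agent.Results.MP_667be6_lc.No
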